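import Pool.Agent.H731Z.PC.Final

namespace Pool.Agent.Results.MP_26edac_al.ANotPolynomial

open Pool.Agent.H731Z.PC

universe u

/-- The negated form of Q1: over every algebraically closed field of characteristic zero there is
a semisimple Lie algebra with an involution whose contraction has the codim-3 property and a
maximal commutative subalgebra of the Lie-Poisson algebra `S(k)`, of maximal dimension
`b(k) = (dim k + ind k) / 2` and even bigraded, that is not polynomial. -/
theorem result (K : Type u) [Field K] [IsAlgClosed K] [CharZero K] :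
    ∃ (g : Type u) (_ : LieRing g) (_ : LieAlgebra K g) (σ : g ≃ₗ⁅K⁆ g),
      Module.Finite K g ∧ LieAlgebra.IsSemisimple K g ∧ (∀ x, σ (σ x) = x) ∧ (∃ x, σ x ≠ x) ∧
      HasCodim σ 3 ∧
      ∃ P, IsLiePoisson σ P ∧ (∀ P', IsLiePoisson σ P' → P' = P) ∧
        ∃ A : Subalgebra K (Sy K g), IsMaxComm P A ∧ HasMaxDim σ A ∧ IsBigraded σ A ∧
          ¬ IsPolynomial A :=
  final K

end Pool.Agent.Results.MP_26edac_al.ANotPolynomial
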